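import Pool.Agent.U615.NCCD

namespace Pool.Agent.Results.MP_944d6d_mp.ReversibleThreeStateTrivial

open Finset Pool.Agent.U615.NCCA

/-- The von Neumann neighborhood `{0, ±e_1, ..., ±e_d}` of the origin of `ℤ^d`. -/
def vonNeumann (d : ℕ) : Set (Fin d → ℤ) :=
  {u | u = 0 ∨ ∃ i, u = Pi.single i 1 ∨ u = -Pi.single i 1}

/-- The global map of the cellular automaton on `ℤ^d` with state set `Fin 3 = {0,1,2}`,
von Neumann neighborhood and local rule `f`: `F(x)_v = f((x_{v+u})_{u ∈ N})`. -/
def globalMap {d : ℕ} (f : (vonNeumann d → Fin 3) → Fin 3) :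
    ((Fin d → ℤ) → Fin 3) → ((Fin d → ℤ) → Fin 3) :=
  fun x v => f (fun u => x (v + u))

/-- `F` is number-conserving: for all positive periods `n_1, ..., n_d` and every configuration
`x` with `x (v + n_i e_i) = x v`, the sum of the states over the period box
`∏ [0, n_i)` is the same for `F x` and for `x`. -/
def NumberConserving {d : ℕ} (F : ((Fin d → ℤ) → Fin 3) → ((Fin d → ℤ) → Fin 3)) : Prop :=
  ∀ n : Fin d → ℕ, (∀ i, 0 < n i) → ∀ x : (Fin d → ℤ) → Fin 3,
    (∀ v i, x (v + Pi.single i (n i : ℤ)) = x v) →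
    ∑ v ∈ Fintype.piFinset (fun i => Finset.Ico (0 : ℤ) (n i)), ((F x v : Fin 3) : ℕ) =
      ∑ v ∈ Fintype.piFinset (fun i => Finset.Ico (0 : ℤ) (n i)), ((x v : Fin 3) : ℕ)

/-- projection to the torus -/
def pr {d : ℕ} (v : Fin d → ℤ) : Fin d → ZMod 7 := fun i => (v i : ZMod 7)

/-- neighborhood in the torus -/
def NT (d : ℕ) : Set (Fin d → ZMod 7) :=
  {u | u = 0 ∨ ∃ i, u = Pi.single i 1 ∨ u = -Pi.single i 1}

/-- state from an integer -/
def toF (n : ℤ) : Fin 3 := Fin.ofNat 3 n.toNat

lemma toF_val {n : ℤ} (h : 0 ≤ n ∧ n ≤ 2) : ((toF n : ℕ) : ℤ) = n := by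
  unfold toF
  obtain ⟨h0, h1⟩ := h
  interval_cases n <;> simp [Fin.ofNat]

lemma toF_cast (s : Fin 3) : toF ((s : ℕ) : ℤ) = s := by
  fin_cases s <;> rfl

/-- the map on the torus -/
def FT {d : ℕ} (f : (vonNeumann d → Fin 3) → Fin 3) (X : (Fin d → ZMod 7) → ℤ) :
    (Fin d → ZMod 7) → ℤ :=
  fun v => ((f (fun u => toF (X (v + pr u.1))) : ℕ) : ℤ)

lemma pr_add {d : ℕ} (v w : Fin d → ℤ) : pr (v + w) = pr v + pr w := by
  funext i
  simp [pr]

lemma pr_single {d : ℕ} (i : Fin d) (a : ℤ) : pr (Pi.single i a) = Pi.single i (a : ZMod 7) := by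
  funext j
  unfold pr
  by_cases h : j = i
  · subst h; simp
  · simp [Pi.single_apply, h]

lemma pr_neg {d : ℕ} (v : Fin d → ℤ) : pr (-v) = -pr v := by
  funext i
  simp [pr]

lemma pr_mem {d : ℕ} {u : Fin d → ℤ} (hu : u ∈ vonNeumann d) : pr u ∈ NT d := by
  rcases hu with h | ⟨i, h | h⟩
  · left; subst h; funext j; simp [pr]
  · right; refine ⟨i, Or.inl ?_⟩
    subst h; rw [pr_single]; simp
  · right; refine ⟨i, Or.inr ?_⟩
    subst h; rw [pr_neg, pr_single]; simp

lemma mem_NT {d : ℕ} {t : Fin d → ZMod 7} (ht : t ∈ NT d) : ∃ u ∈ vonNeumann d, pr u = t := by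
  rcases ht with h | ⟨i, h | h⟩
  · refine ⟨0, Or.inl rfl, ?_⟩
    rw [h]; funext j; simp [pr]
  · refine ⟨Pi.single i 1, Or.inr ⟨i, Or.inl rfl⟩, ?_⟩
    rw [h, pr_single]; simp
  · refine ⟨-Pi.single i 1, Or.inr ⟨i, Or.inr rfl⟩, ?_⟩
    rw [h, pr_neg, pr_single]; simp

lemma NT_vals {d : ℕ} {a : Fin d → ZMod 7} (ha : a ∈ NT d) (x : Fin d) :
    a x = 0 ∨ a x = 1 ∨ a x = -1 := by
  rcases ha with h | ⟨i, h | h⟩
  · left; rw [h]; rfl
  · subst h
    by_cases hx : x = i
    · subst hx; simp
    · left; simp [hx]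
  · subst h
    by_cases hx : x = i
    · subst hx; simp
    · left; simp [hx]

lemma NT_supp {d : ℕ} {a : Fin d → ZMod 7} (ha : a ∈ NT d) {x y : Fin d} (hxy : y ≠ x)
    (hx : a x ≠ 0) : a y = 0 := by
  rcases ha with h | ⟨i, h | h⟩
  · rw [h]; rfl
  · subst h
    by_cases hxi : x = i
    · subst hxi; simp [hxy]
    · exact absurd (by simp [hxi]) hx
  · subst h
    by_cases hxi : x = i
    · subst hxi; simp [hxy]
    · exact absurd (by simp [hxi]) hx

lemma vN_vals {d : ℕ} {a : Fin d → ℤ} (ha : a ∈ vonNeumann d) (x : Fin d) :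
    a x = 0 ∨ a x = 1 ∨ a x = -1 := by
  rcases ha with h | ⟨i, h | h⟩
  · left; rw [h]; rfl
  · subst h
    by_cases hx : x = i
    · subst hx; simp
    · left; simp [hx]
  · subst h
    by_cases hx : x = i
    · subst hx; simp
    · left; simp [hx]

lemma pr_inj {d : ℕ} : Function.Injective (fun u : vonNeumann d => pr u.1) := by
  intro u u' h
  apply Subtype.ext
  funext i
  have h1 := congrFun h i
  simp only [pr] at h1
  rcases vN_vals u.2 i with a | a | a <;> rcases vN_vals u'.2 i with b | b | b <;>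
    rw [a, b] at h1 ⊢ <;> revert h1 <;> decide

lemma key4 : ∀ a b c d : ZMod 7, (a = 0 ∨ a = 1 ∨ a = -1) → (b = 0 ∨ b = 1 ∨ b = -1) →
    (c = 0 ∨ c = 1 ∨ c = -1) → (d = 0 ∨ d = 1 ∨ d = -1) → a + b = c + d → a + b ≠ 0 →
    (a = c ∧ b = d) ∨ (a = d ∧ b = c) := by
  intro a b c d ha hb hc hd
  rcases ha with rfl | rfl | rfl <;> rcases hb with rfl | rfl | rfl <;>
    rcases hc with rfl | rfl | rfl <;> rcases hd with rfl | rfl | rfl <;> decide

lemma key3 : ∀ a b c : ZMod 7, (a = 0 ∨ a = 1 ∨ a = -1) → (b = 0 ∨ b = 1 ∨ b = -1) →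
    (c = 0 ∨ c = 1 ∨ c = -1) → a ≠ 0 → a + a + a ≠ b + c := by
  intro a b c ha hb hc
  rcases ha with rfl | rfl | rfl <;> rcases hb with rfl | rfl | rfl <;>
    rcases hc with rfl | rfl | rfl <;> decide

lemma key2 : ∀ a : ZMod 7, a ≠ 0 → a + a ≠ 0 := by decide

lemma g1 {d : ℕ} : ∀ a ∈ NT d, ∀ b ∈ NT d, ∀ c ∈ NT d, ∀ e ∈ NT d, a + b = c + e → a + b ≠ 0 →
    (a = c ∧ b = e) ∨ (a = e ∧ b = c) := by
  have half : ∀ a ∈ NT d, ∀ b ∈ NT d, ∀ c ∈ NT d, ∀ e ∈ NT d, a + b = c + e →
      ∀ x, a x + b x ≠ 0 → a x = c x → b x = e x → a = c ∧ b = e := by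
    intro a ha b hb c hc e he h x hx h1 h2
    have hne : a x ≠ 0 ∨ b x ≠ 0 := by
      by_contra hh
      push Not at hh
      apply hx; rw [hh.1, hh.2]; ring
    rcases hne with hne | hne
    · have hac : a = c := by
        funext y
        by_cases hy : y = x
        · rw [hy, h1]
        · rw [NT_supp ha hy hne, NT_supp hc hy (by rw [← h1]; exact hne)]
      refine ⟨hac, ?_⟩
      rw [hac] at h
      exact add_left_cancel h
    · have hbe : b = e := by
        funext y
        by_cases hy : y = x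
        · rw [hy, h2]
        · rw [NT_supp hb hy hne, NT_supp he hy (by rw [← h2]; exact hne)]
      refine ⟨?_, hbe⟩
      rw [hbe] at h
      exact add_right_cancel h
  intro a ha b hb c hc e he h hne
  have : ∃ x, a x + b x ≠ 0 := by
    by_contra hh
    push Not at hh
    exact hne (funext hh)
  obtain ⟨x, hx⟩ := this
  have hxe : a x + b x = c x + e x := congrFun h x
  rcases key4 _ _ _ _ (NT_vals ha x) (NT_vals hb x) (NT_vals hc x) (NT_vals he x) hxe hx with
    ⟨h1, h2⟩ | ⟨h1, h2⟩
  · left; exact half a ha b hb c hc e he h x hx h1 h2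
  · right; exact half a ha b hb e he c hc (by rw [h, add_comm]) x hx h1 h2

/-- sums over the period box are sums over the torus -/
lemma sum_box {d : ℕ} (g : (Fin d → ZMod 7) → ℤ) :
    ∑ v ∈ Fintype.piFinset (fun _ : Fin d => Finset.Ico (0 : ℤ) ((7 : ℕ) : ℤ)), g (pr v) =
      ∑ v, g v := by
  refine Finset.sum_nbij' (fun v => pr v) (fun w i => ((w i).val : ℤ)) ?_ ?_ ?_ ?_ ?_
  · intro v _; exact Finset.mem_univ _
  · intro w _
    rw [Fintype.mem_piFinset]
    intro i
    rw [Finset.mem_Ico]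
    refine ⟨by positivity, ?_⟩
    exact_mod_cast ZMod.val_lt (w i)
  · intro v hv
    rw [Fintype.mem_piFinset] at hv
    funext i
    have h := Finset.mem_Ico.1 (hv i)
    simp only [pr]
    rw [ZMod.val_intCast]
    exact Int.emod_eq_of_lt h.1 h.2
  · intro w _
    funext i
    simp [pr]
  · intro v _; rfl

lemma setup {d : ℕ} (f : (vonNeumann d → Fin 3) → Fin 3) (hN : NumberConserving (globalMap f))
    (hI : Function.Injective (globalMap f)) : Setup (NT d) (FT f) where
  zero_mem := Or.inl rfl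
  neg_mem := by
    intro a ha
    rcases ha with h | ⟨i, h | h⟩
    · left; rw [h]; simp
    · right; exact ⟨i, Or.inr (by rw [h])⟩
    · right; exact ⟨i, Or.inl (by rw [h, neg_neg])⟩
  g1 := g1
  g2 := by
    intro a _ h0 h
    apply h0
    funext x
    by_contra hx
    exact key2 _ hx (congrFun h x)
  g3 := by
    intro a ha h0 b hb c hc h
    apply h0
    funext x
    by_contra hx
    exact key3 _ _ _ (NT_vals ha x) (NT_vals hb x) (NT_vals hc x) hx (congrFun h x)
  val := by
    intro X _ v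
    unfold FT
    have := (f (fun u => toF (X (v + pr u.1)))).isLt
    omega
  loc := by
    intro X Y v _ _ h
    unfold FT
    have : (fun u : vonNeumann d => toF (X (v + pr u.1))) = fun u => toF (Y (v + pr u.1)) := by
      funext u
      rw [h (v + pr u.1) (by rw [add_sub_cancel_left]; exact pr_mem u.2)]
    rw [this]
  tr := by
    intro X a _
    funext v
    unfold FT
    have : (fun u : vonNeumann d => toF (X (v + pr u.1 + a))) =
        fun u => toF (X (v + a + pr u.1)) := by
      funext u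
      rw [add_right_comm]
    rw [this]
  mass := by
    intro X hX
    have h := hN (fun _ => 7) (fun _ => by norm_num) (fun w => toF (X (pr w))) (by
      intro v i
      have : pr (v + Pi.single i ((7 : ℕ) : ℤ)) = pr v := by
        rw [pr_add, pr_single]
        have : (((7 : ℕ) : ℤ) : ZMod 7) = 0 := by decide
        rw [this]; simp
      simp only [this])
    have h' : ∑ v ∈ Fintype.piFinset (fun _ : Fin d => Finset.Ico (0 : ℤ) ((7 : ℕ) : ℤ)),
        FT f X (pr v) =
        ∑ v ∈ Fintype.piFinset (fun _ : Fin d => Finset.Ico (0 : ℤ) ((7 : ℕ) : ℤ)),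
          X (pr v) := by
      have e1 : ∀ v : Fin d → ℤ, FT f X (pr v) =
          (((globalMap f (fun w => toF (X (pr w))) v : Fin 3) : ℕ) : ℤ) := by
        intro v
        simp only [FT, globalMap, pr_add]
      have e2 : ∀ v : Fin d → ℤ, X (pr v) = (((toF (X (pr v)) : Fin 3) : ℕ) : ℤ) := by
        intro v
        rw [toF_val (hX _)]
      rw [Finset.sum_congr rfl (fun v _ => e1 v), Finset.sum_congr rfl (fun v _ => e2 v)]
      exact_mod_cast h
    rw [sum_box, sum_box] at h'
    exact h'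
  inj := by
    intro X Y hX hY h
    have e : globalMap f (fun w => toF (X (pr w))) = globalMap f (fun w => toF (Y (pr w))) := by
      funext v
      have h1 := congrFun h (pr v)
      simp only [FT, ← pr_add] at h1
      have h2 : ((f (fun u => toF (X (pr (v + u.1)))) : Fin 3) : ℕ) =
          ((f (fun u => toF (Y (pr (v + u.1)))) : Fin 3) : ℕ) := by exact_mod_cast h1
      exact Fin.ext h2
    have e' := hI e
    funext τ
    obtain ⟨w, hw⟩ : ∃ w : Fin d → ℤ, pr w = τ := by
      refine ⟨fun i => ((τ i).val : ℤ), ?_⟩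
      funext i; simp [pr]
    have h3 := congrFun e' w
    simp only [hw] at h3
    rw [← toF_val (hX τ), ← toF_val (hY τ), h3]

/-- For every dimension `d`, every reversible (bijective) number-conserving cellular automaton
on `ℤ^d` with state set `{0,1,2}` and the von Neumann neighborhood is the identity or one of
the `2d` unit shifts. -/
theorem result (d : ℕ) (f : (vonNeumann d → Fin 3) → Fin 3)
    (hN : NumberConserving (globalMap f)) (hR : Function.Bijective (globalMap f)) :
    (∀ x, globalMap f x = x) ∨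
      ∃ i : Fin d, (∀ x v, globalMap f x v = x (v + Pi.single i 1)) ∨
        (∀ x v, globalMap f x v = x (v - Pi.single i 1)) := by
  obtain ⟨t, ht, hF⟩ := (setup f hN hR.1).main
  obtain ⟨u, hu, hut⟩ := mem_NT ht
  have main : ∀ x v, globalMap f x v = x (v + u) := by
    intro x v
    set X : (Fin d → ZMod 7) → ℤ :=
      Function.extend (fun w : vonNeumann d => pr w.1) (fun w => (((x (v + w.1) : Fin 3) : ℕ) : ℤ))
        0 with hXdef
    have hX1 : ∀ w : vonNeumann d, X (pr w.1) = (((x (v + w.1) : Fin 3) : ℕ) : ℤ) := by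
      intro w
      exact pr_inj.extend_apply _ _ w
    have hXc : IsCfg X := by
      intro τ
      by_cases hτ : ∃ w : vonNeumann d, pr w.1 = τ
      · obtain ⟨w, hw⟩ := hτ
        rw [← hw, hX1]
        have := (x (v + w.1)).isLt
        omega
      · rw [hXdef, Function.extend_apply' _ _ _ hτ]
        simp
    have h := congrFun (hF X hXc) 0
    rw [zero_add, ← hut, hX1 ⟨u, hu⟩] at h
    have h2 : FT f X 0 = (((globalMap f x v : Fin 3) : ℕ) : ℤ) := by
      unfold FT globalMap
      have : (fun w : vonNeumann d => toF (X (0 + pr w.1))) = fun w => x (v + w.1) := by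
        funext w
        rw [zero_add, hX1, toF_cast]
      rw [this]
    rw [h2] at h
    apply Fin.ext
    exact_mod_cast h
  rcases hu with h | ⟨i, h | h⟩
  · left
    intro x
    funext v
    rw [main, h, add_zero]
  · right
    refine ⟨i, Or.inl ?_⟩
    intro x v
    rw [main, h]
  · right
    refine ⟨i, Or.inr ?_⟩
    intro x v
    rw [main, h, sub_eq_add_neg]

end Pool.Agent.Results.MP_944d6d_mp.ReversibleThreeStateTrivial
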